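import Mathlib

/-! Definitions: two-forms, Hamiltonian vector fields, contact type, on manifolds (without boundary)
modelled on a finite-dimensional real normed space `E` through a model `I`. Mathlib's tangent space
at a point is the vector space `E`, identified through the preferred chart at the point. -/

open scoped Topology ContDiff Manifold
open Set

noncomputable section

namespace Pool.Agent.U603.WP

section

variable {E : Type*} [NormedAddCommGroup E] [NormedSpace ℝ E]
  {H : Type*} [TopologicalSpace H] (I : ModelWithCorners ℝ E H)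
  {M : Type*} [TopologicalSpace M] [ChartedSpace H M]

/-- the differential of a function at a point -/
def dF (f : M → ℝ) (x : M) : E →L[ℝ] ℝ := mfderiv I 𝓘(ℝ, ℝ) f x

/-- the one-form `α` (a covector at every point) read in the preferred chart at the point `x` -/
def inChart (α : M → E →L[ℝ] ℝ) (x : M) (y : E) : E →L[ℝ] ℝ :=
  (α ((extChartAt I x).symm y)).comp
    (mfderiv 𝓘(ℝ, E) I (extChartAt I x).symm y : E →L[ℝ] E)

/-- the exterior derivative of a one-form: `dα(u,v) = (D_u α)(v) - (D_v α)(u)` in the chart at the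
point -/
def extDer (α : M → E →L[ℝ] ℝ) (x : M) (u v : E) : ℝ :=
  fderiv ℝ (inChart I α x) (extChartAt I x x) u v -
    fderiv ℝ (inChart I α x) (extChartAt I x x) v u

/-- a nondegenerate two-form: an alternating nondegenerate bilinear form on each tangent space -/
structure IsNondegForm (σ : M → E →L[ℝ] E →L[ℝ] ℝ) : Prop where
  alt : ∀ x u, σ x u u = 0
  nondeg : ∀ x u, (∀ v, σ x u v = 0) → u = 0

/-- `X` is the Hamiltonian vector field of `f`: `σ(X, ·) = -df` -/
def IsHamiltonian (σ : M → E →L[ℝ] E →L[ℝ] ℝ) (f : M → ℝ) (X : M → E) : Prop :=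
  ∀ x v, σ x (X x) v = - dF I f x v

/-- the vector field `Y` is smooth of class `C^n` on the set `U` -/
def SmoothFieldOn (n : ℕ∞) (Y : M → E) (U : Set M) [IsManifold I ∞ M] : Prop :=
  ContMDiffOn I I.tangent n (fun x => (⟨x, Y x⟩ : TangentBundle I M)) U

/-- The level set `{f = c}` is of contact type: on a neighbourhood `U` of it there is a smooth
Liouville vector field `Y` (`d (σ(Y, ·)) = σ`) transverse to the level set. -/
def ContactType [IsManifold I ∞ M] (σ : M → E →L[ℝ] E →L[ℝ] ℝ) (f : M → ℝ) (c : ℝ) : Prop :=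
  ∃ U : Set M, IsOpen U ∧ {x | f x = c} ⊆ U ∧ ∃ Y : M → E, SmoothFieldOn I ⊤ Y U ∧
    (∀ x ∈ U, ∀ u v, extDer I (fun z => σ z (Y z)) x u v = σ x u v) ∧
    ∀ x, f x = c → dF I f x (Y x) ≠ 0

/-- The level set `{f = c}` is compact, nonempty and regular. -/
structure CompactRegular (f : M → ℝ) (c : ℝ) : Prop where
  compact : IsCompact {x | f x = c}
  nonempty : {x | f x = c}.Nonempty
  regular : ∀ x, f x = c → dF I f x ≠ 0

/-- `γ` is a periodic orbit of `X` with period `T > 0` on the level set `{f = c}`. -/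
structure IsPeriodicOrbitOn (X : M → E) (f : M → ℝ) (c : ℝ) (γ : ℝ → M) (T : ℝ) : Prop where
  pos : 0 < T
  integral : IsMIntegralCurve (I := I) γ (fun x => (X x : TangentSpace I x))
  period : ∀ t, γ (t + T) = γ t
  level : ∀ t, f (γ t) = c

end

section

variable {E₁ : Type*} [NormedAddCommGroup E₁] [NormedSpace ℝ E₁]
  {E₂ : Type*} [NormedAddCommGroup E₂] [NormedSpace ℝ E₂] {M N : Type*}

/-- the product two-form `σ₁ ⊕ σ₂` on `M × N` -/
def prodForm (σ₁ : M → E₁ →L[ℝ] E₁ →L[ℝ] ℝ) (σ₂ : N → E₂ →L[ℝ] E₂ →L[ℝ] ℝ) (p : M × N) :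
    (E₁ × E₂) →L[ℝ] (E₁ × E₂) →L[ℝ] ℝ :=
  (σ₁ p.1).bilinearComp (ContinuousLinearMap.fst ℝ E₁ E₂) (ContinuousLinearMap.fst ℝ E₁ E₂) +
    (σ₂ p.2).bilinearComp (ContinuousLinearMap.snd ℝ E₁ E₂) (ContinuousLinearMap.snd ℝ E₁ E₂)

theorem prodForm_apply (σ₁ : M → E₁ →L[ℝ] E₁ →L[ℝ] ℝ) (σ₂ : N → E₂ →L[ℝ] E₂ →L[ℝ] ℝ) (p : M × N)
    (u v : E₁ × E₂) : prodForm σ₁ σ₂ p u v = σ₁ p.1 u.1 v.1 + σ₂ p.2 u.2 v.2 := rfl

end

end Pool.Agent.U603.WP
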