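import Mathlib

/-! Flow boxes on level sets of functions on surfaces. -/

open scoped Topology ContDiff Manifold
open Set Filter

noncomputable section

namespace Pool.Agent.U603.WP

section dyn

variable {E : Type*} [NormedAddCommGroup E] [NormedSpace ℝ E] [FiniteDimensional ℝ E]
  {M : Type*} [TopologicalSpace M] [ChartedSpace E M] [IsManifold 𝓘(ℝ, E) ∞ M]

/-- a linear map to `ℝ × ℝ` from a plane -/
theorem inj_pair (hdim : Module.finrank ℝ E = 2) (k u : E →L[ℝ] ℝ) (w : E) (hk : k ≠ 0)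
    (hkw : k w = 0) (huw : u w ≠ 0) : Function.Injective (k.prod u) := by
  have hw : w ≠ 0 := by
    rintro rfl
    exact huw (map_zero u)
  have hker : Module.finrank ℝ (LinearMap.ker (k : E →ₗ[ℝ] ℝ)) = 1 := by
    have h1 := LinearMap.finrank_range_add_finrank_ker (k : E →ₗ[ℝ] ℝ)
    have h2 : Module.finrank ℝ (LinearMap.range (k : E →ₗ[ℝ] ℝ)) = 1 := by
      have hne : (k : E →ₗ[ℝ] ℝ) ≠ 0 := by
        intro h
        apply hk
        ext x
        exact LinearMap.congr_fun h x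
      rw [LinearMap.range_eq_top.2 (LinearMap.surjective hne)]
      simp
    omega
  refine (injective_iff_map_eq_zero _).2 ?_
  intro e he
  have h1 : k e = 0 := congrArg Prod.fst he
  have h2 : u e = 0 := congrArg Prod.snd he
  have hw' : (⟨w, hkw⟩ : LinearMap.ker (k : E →ₗ[ℝ] ℝ)) ≠ 0 := by
    intro h
    exact hw (congrArg Subtype.val h)
  obtain ⟨c, hc⟩ := (finrank_eq_one_iff_of_nonzero' _ hw').1 hker ⟨e, h1⟩
  have hc' : c • w = e := congrArg Subtype.val hc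
  have : c = 0 := by
    rw [← hc', map_smul, smul_eq_mul] at h2
    rcases mul_eq_zero.1 h2 with h | h
    · exact h
    · exact absurd h huw
  rw [← hc', this, zero_smul]

theorem local_box (hdim : Module.finrank ℝ E = 2) {f : M → ℝ}
    (hf : ContMDiff 𝓘(ℝ, E) 𝓘(ℝ, ℝ) ∞ f) {w : E} {p : M}
    (hreg : (mfderiv 𝓘(ℝ, E) 𝓘(ℝ, ℝ) f p : E →L[ℝ] ℝ) ≠ 0)
    (hw : w ≠ 0) (hvt : (mfderiv 𝓘(ℝ, E) 𝓘(ℝ, ℝ) f p : E →L[ℝ] ℝ) w = 0)
    {δ : ℝ → M} {ε : ℝ} (hε : 0 < ε) (h0 : δ 0 = p)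
    (hd : HasMFDerivAt 𝓘(ℝ, ℝ) 𝓘(ℝ, E) δ 0 ((1 : ℝ →L[ℝ] ℝ).smulRight w))
    (hcont : ContinuousOn δ (Ioo (-ε) ε))
    (hlev : ∀ t ∈ Ioo (-ε) ε, f (δ t) = f p) :
    ∃ V ∈ 𝓝 p, ∀ q ∈ V, f q = f p → ∃ s ∈ Ioo (-ε) ε, δ s = q := by
  subst h0
  set p := δ 0 with hp
  set φ := extChartAt 𝓘(ℝ, E) p with hφ
  set k : E → ℝ := fun e => f (φ.symm e) with hk
  -- the function in the chart
  have hkd : ContDiffAt ℝ ∞ k (φ p) := by
    have h1 := (contMDiffAt_iff.1 (hf p)).2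
    rw [← contDiffWithinAt_univ]
    simpa [Function.comp_def, hk, hφ] using h1
  have hkf : fderiv ℝ k (φ p) = (mfderiv 𝓘(ℝ, E) 𝓘(ℝ, ℝ) f p : E →L[ℝ] ℝ) := by
    have h1 : MDifferentiableAt 𝓘(ℝ, E) 𝓘(ℝ, ℝ) f p := (hf p).mdifferentiableAt (by simp)
    rw [mfderiv, if_pos h1]
    simp [writtenInExtChartAt, Function.comp_def, hk, hφ, fderivWithin_univ]
  obtain ⟨u, hu⟩ := SeparatingDual.exists_ne_zero (R := ℝ) hw
  have hinj : Function.Injective ((fderiv ℝ k (φ p)).prod u) :=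
    inj_pair hdim _ u w (by rw [hkf]; exact hreg) (by rw [hkf]; exact hvt) hu
  let L : E ≃L[ℝ] ℝ × ℝ := (LinearMap.linearEquivOfInjective
    (((fderiv ℝ k (φ p)).prod u : E →L[ℝ] ℝ × ℝ) : E →ₗ[ℝ] ℝ × ℝ) hinj
      (by simp [hdim])).toContinuousLinearEquiv
  have hL : (L : E →L[ℝ] ℝ × ℝ) = (fderiv ℝ k (φ p)).prod u := by
    ext x <;> rfl
  have hstrict : HasStrictFDerivAt (fun e => (k e, u e)) (L : E →L[ℝ] ℝ × ℝ) (φ p) := by
    rw [hL]
    exact (hkd.hasStrictFDerivAt (by simp)).prodMk u.hasStrictFDerivAt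
  set Φ := hstrict.toOpenPartialHomeomorph (fun e => (k e, u e)) with hΦ
  have haW : φ p ∈ Φ.source := hstrict.mem_toOpenPartialHomeomorph_source
  have hinjW : InjOn (fun e => (k e, u e)) Φ.source := by
    have := Φ.injOn
    rwa [hstrict.toOpenPartialHomeomorph_coe] at this
  -- the curve in the chart
  have hdc : ContinuousAt δ 0 := hd.1
  have hdd : HasDerivAt (fun t => φ (δ t)) w 0 := by
    have h1 := hd.2
    simp only [writtenInExtChartAt, extChartAt_model_space_eq_id, PartialEquiv.refl_coe,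
      PartialEquiv.refl_symm, Function.comp_def, id, modelWithCornersSelf_coe, range_id,
      hasFDerivWithinAt_univ] at h1
    have h2 : HasFDerivAt (fun t => φ (δ t)) ((1 : ℝ →L[ℝ] ℝ).smulRight w : ℝ →L[ℝ] E) 0 := h1
    have h3 := h2.hasDerivAt
    simpa using h3
  set g : ℝ → ℝ := fun t => u w * (u (φ (δ t)) - u (φ p)) with hg
  have hg0 : g 0 = 0 := by simp [hg, hp]
  have hgd : HasDerivAt g (u w * u w) 0 := by
    have h1 : HasDerivAt (fun t => u (φ (δ t))) (u w) 0 := by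
      have := u.hasFDerivAt.comp_hasDerivAt (0 : ℝ) hdd
      simpa [Function.comp_def] using this
    exact (h1.sub_const _).const_mul _
  have hpos : 0 < u w * u w := mul_self_pos.2 hu
  -- the good times
  have hsrc : ∀ᶠ t in 𝓝 (0 : ℝ), δ t ∈ φ.source ∧ φ (δ t) ∈ Φ.source := by
    have h1 : ∀ᶠ q in 𝓝 (δ 0), q ∈ φ.source := extChartAt_source_mem_nhds (I := 𝓘(ℝ, E)) p
    have h2 : ∀ᶠ q in 𝓝 (δ 0), φ q ∈ Φ.source :=
      (continuousAt_extChartAt (I := 𝓘(ℝ, E)) p).eventually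
        (Φ.open_source.mem_nhds haW)
    exact hdc.eventually (h1.and h2)
  have hslope : ∀ᶠ t in 𝓝[≠] (0 : ℝ), 0 < slope g 0 t :=
    (hasDerivAt_iff_tendsto_slope.1 hgd).eventually (lt_mem_nhds hpos)
  rw [eventually_nhdsWithin_iff] at hslope
  have hio : ∀ᶠ t in 𝓝 (0 : ℝ), t ∈ Ioo (-ε) ε := Ioo_mem_nhds (by linarith) hε
  obtain ⟨r, hr, hball⟩ := Metric.eventually_nhds_iff.1 ((hsrc.and hslope).and hio)
  set η := r / 2 with hη
  have hη0 : 0 < η := by positivity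
  have hin : ∀ t ∈ Icc (-η) η, dist t 0 < r := by
    intro t ht
    rw [Real.dist_eq, sub_zero, abs_lt]
    constructor <;> linarith [ht.1, ht.2]
  have hgη : 0 < g η := by
    have h1 := (hball (hin η ⟨by linarith, le_refl _⟩)).1.2 hη0.ne'
    rw [slope_def_field, hg0, sub_zero, sub_zero] at h1
    have h2 : g η / η * η = g η := div_mul_cancel₀ _ hη0.ne'
    rw [← h2]; positivity
  have hgη' : g (-η) < 0 := by
    have h1 := (hball (hin (-η) ⟨le_refl _, by linarith⟩)).1.2 (by simp [hη0.ne'])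
    rw [slope_def_field, hg0, sub_zero, sub_zero, div_neg, ← neg_div] at h1
    have h2 : - g (-η) / η * η = - g (-η) := div_mul_cancel₀ _ hη0.ne'
    have h3 : 0 < - g (-η) := by rw [← h2]; positivity
    linarith
  have hgc : ContinuousOn g (Icc (-η) η) := by
    have h1 : ContinuousOn (fun t => φ (δ t)) (Icc (-η) η) := by
      refine (continuousOn_extChartAt (I := 𝓘(ℝ, E)) p).comp (hcont.mono ?_) ?_
      · intro t ht
        exact (hball (hin t ht)).2
      · intro t ht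
        exact (hball (hin t ht)).1.1.1
    exact continuousOn_const.mul ((u.continuous.comp_continuousOn h1).sub continuousOn_const)
  -- the neighbourhood
  have hV : ∀ᶠ q in 𝓝 p, q ∈ φ.source ∧ φ q ∈ Φ.source ∧
      u w * (u (φ q) - u (φ p)) ∈ Ioo (g (-η)) (g η) := by
    have h1 : ∀ᶠ q in 𝓝 p, q ∈ φ.source := extChartAt_source_mem_nhds (I := 𝓘(ℝ, E)) p
    have h2 : ∀ᶠ q in 𝓝 p, φ q ∈ Φ.source :=
      (continuousAt_extChartAt (I := 𝓘(ℝ, E)) p).eventually (Φ.open_source.mem_nhds haW)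
    have h3 : ContinuousAt (fun q => u w * (u (φ q) - u (φ p))) p :=
      continuousAt_const.mul ((u.continuous.continuousAt.comp
        (continuousAt_extChartAt (I := 𝓘(ℝ, E)) p)).sub continuousAt_const)
    have h4 := h3.eventually (Ioo_mem_nhds (a := g (-η)) (b := g η) (by simpa using hgη')
      (by simpa using hgη))
    exact h1.and (h2.and h4)
  refine ⟨_, hV, ?_⟩
  rintro q ⟨hq1, hq2, hq3⟩ hq4
  obtain ⟨s, hs, hs2⟩ := intermediate_value_Icc (by linarith) hgc (Ioo_subset_Icc_self hq3)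
  have hsb := hball (hin s hs)
  refine ⟨s, hsb.2, ?_⟩
  have h1 : u (φ (δ s)) = u (φ q) := by
    have h2 : u w * (u (φ (δ s)) - u (φ p)) = u w * (u (φ q) - u (φ p)) := hs2
    have h3 := mul_left_cancel₀ hu h2
    linarith
  have h2 : k (φ (δ s)) = k (φ q) := by
    simp only [hk]
    rw [φ.left_inv hsb.1.1.1, φ.left_inv hq1, hlev s hsb.2, hq4]
  have h3 : φ (δ s) = φ q := hinjW hsb.1.1.2 hq2 (Prod.ext h2 h1)
  exact φ.injOn hsb.1.1.1 hq1 h3

end dyn

end Pool.Agent.U603.WP
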