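import Mathlib
import Pool.Agent.U603.WP.Box

/-! Periodic orbits on compact regular level sets of first integrals on surfaces. -/

open scoped Topology ContDiff Manifold
open Set Filter Function

noncomputable section

namespace Pool.Agent.U603.WP

section dyn

variable {E : Type*} [NormedAddCommGroup E] [NormedSpace ℝ E]
  {M : Type*} [TopologicalSpace M] [ChartedSpace E M]
  {v : (x : M) → TangentSpace 𝓘(ℝ, E) x}

/-- first integrals are constant along integral curves -/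
theorem level_const {f : M → ℝ} (hf : ContMDiff 𝓘(ℝ, E) 𝓘(ℝ, ℝ) ∞ f)
    (hdf : ∀ x, mfderiv 𝓘(ℝ, E) 𝓘(ℝ, ℝ) f x (v x) = 0) {γ : ℝ → M} {a b : ℝ}
    (hγ : IsMIntegralCurveOn γ v (Ioo a b)) {s t : ℝ} (hs : s ∈ Ioo a b) (ht : t ∈ Ioo a b) :
    f (γ s) = f (γ t) := by
  have hd : ∀ r ∈ Ioo a b, HasDerivAt (fun r => f (γ r)) 0 r := by
    intro r hr
    have h1 := (hγ r hr).hasMFDerivAt (Ioo_mem_nhds hr.1 hr.2)
    have h2 : HasMFDerivAt 𝓘(ℝ, E) 𝓘(ℝ, ℝ) f (γ r) (mfderiv 𝓘(ℝ, E) 𝓘(ℝ, ℝ) f (γ r)) :=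
      ((hf (γ r)).mdifferentiableAt (by simp)).hasMFDerivAt
    have h3 := h2.comp r h1
    have h4 : HasFDerivAt (f ∘ γ) ((0 : ℝ →L[ℝ] ℝ)) r := by
      have h5 := h3.hasFDerivAt
      have h6 : (mfderiv 𝓘(ℝ, E) 𝓘(ℝ, ℝ) f (γ r)).comp
          ((1 : ℝ →L[ℝ] ℝ).smulRight (v (γ r))) = (0 : ℝ →L[ℝ] ℝ) := by
        apply ContinuousLinearMap.ext
        intro x
        show mfderiv 𝓘(ℝ, E) 𝓘(ℝ, ℝ) f (γ r) (x • v (γ r)) = 0
        rw [map_smul, hdf]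
        exact smul_zero x
      exact h5.congr_fderiv h6
    have h7 := h4.hasDerivAt
    simpa [Function.comp_def] using h7
  exact isOpen_Ioo.is_const_of_deriv_eq_zero isPreconnected_Ioo
    (fun r hr => (hd r hr).differentiableAt.differentiableWithinAt)
    (fun r hr => (hd r hr).deriv) hs ht

/-- uniform time lemma on an invariant set -/
theorem exists_global [FiniteDimensional ℝ E] [IsManifold 𝓘(ℝ, E) ∞ M] [T2Space M]
    (hv : ContMDiff 𝓘(ℝ, E) 𝓘(ℝ, E).tangent 1 (fun x ↦ (⟨x, v x⟩ : TangentBundle 𝓘(ℝ, E) M)))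
    {S : Set M} (hinv : ∀ (γ : ℝ → M) (a b s t : ℝ), IsMIntegralCurveOn γ v (Ioo a b) →
      s ∈ Ioo a b → t ∈ Ioo a b → γ s ∈ S → γ t ∈ S)
    {ε : ℝ} (hε : 0 < ε)
    (h : ∀ x ∈ S, ∃ γ : ℝ → M, γ 0 = x ∧ IsMIntegralCurveOn γ v (Ioo (-ε) ε))
    (x : M) (hx : x ∈ S) : ∃ γ : ℝ → M, γ 0 = x ∧ IsMIntegralCurve γ v := by
  have : IsManifold 𝓘(ℝ, E) 1 M := IsManifold.of_le (n := ∞) (by simp)
  let s := { a | ∃ γ, γ 0 = x ∧ IsMIntegralCurveOn γ v (Ioo (-a) a) }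
  suffices hbdd : ¬BddAbove s by
    rw [not_bddAbove_iff] at hbdd
    rw [exists_isMIntegralCurve_iff_exists_isMIntegralCurveOn_Ioo hv]
    intro a
    obtain ⟨y, ⟨γ, hγ1, hγ2⟩, hlt⟩ := hbdd a
    exact ⟨γ, hγ1, hγ2.mono <| Ioo_subset_Ioo (neg_le_neg hlt.le) hlt.le⟩
  intro hbdd
  set asup := sSup s with hasup
  obtain ⟨a, ha, hlt⟩ := Real.add_neg_lt_sSup (⟨ε, h x hx⟩ : Set.Nonempty s) (ε := - (ε / 2))
    (by rw [neg_lt, neg_zero]; exact half_pos hε)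
  have ha' : ∃ γ, γ 0 = x ∧ IsMIntegralCurveOn γ v (Ioo (-a) a) := ha
  rw [← hasup, ← sub_eq_add_neg] at hlt
  obtain ⟨γ, h0, hγ⟩ := ha'
  have hεle : ε ≤ asup := le_csSup hbdd (h x hx)
  have hin0 : (0 : ℝ) ∈ Ioo (-a) a := ⟨by linarith, by linarith⟩
  have hS1 : γ (-(asup - ε / 2)) ∈ S := by
    refine hinv γ (-a) a 0 _ hγ hin0 ⟨by linarith, by linarith⟩ ?_
    rw [h0]; exact hx
  have hS2 : γ (asup - ε / 2) ∈ S := by
    refine hinv γ (-a) a 0 _ hγ hin0 ⟨by linarith, by linarith⟩ ?_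
    rw [h0]; exact hx
  obtain ⟨γ1_aux, h1_aux, hγ1⟩ := h (γ (-(asup - ε / 2))) hS1
  rw [← isMIntegralCurveOn_comp_add (dt := asup - ε / 2)] at hγ1
  set γ1 := γ1_aux ∘ (· + (asup - ε / 2)) with γ1_def
  have heq1 : γ1 (-(asup - ε / 2)) = γ (-(asup - ε / 2)) := by simp [γ1_def, h1_aux]
  obtain ⟨γ2_aux, h2_aux, hγ2⟩ := h (γ (asup - ε / 2)) hS2
  rw [← isMIntegralCurveOn_comp_sub (dt := asup - ε / 2)] at hγ2
  set γ2 := γ2_aux ∘ (· - (asup - ε / 2)) with γ2_def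
  have heq2 : γ2 (asup - ε / 2) = γ (asup - ε / 2) := by simp [γ2_def, h2_aux]
  simp_rw [Set.mem_Ioo, ← sub_lt_iff_lt_add, ← lt_sub_iff_add_lt, ← Set.mem_Ioo] at hγ1
  simp_rw [Set.mem_Ioo, lt_sub_iff_add_lt, sub_lt_iff_lt_add, ← Set.mem_Ioo] at hγ2
  set γ_ext : ℝ → M := piecewise (Ioo (-(asup + ε / 2)) a)
    (piecewise (Ioo (-a) a) γ γ1) γ2 with γ_ext_def
  have heq_ext : γ_ext 0 = x := by
    rw [γ_ext_def, piecewise, if_pos ⟨by linarith, by linarith⟩, piecewise,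
      if_pos ⟨by linarith, by linarith⟩, h0]
  suffices hext : IsMIntegralCurveOn γ_ext v (Ioo (-(asup + ε / 2)) (asup + ε / 2)) from
    (not_lt.mpr <| le_csSup hbdd ⟨γ_ext, heq_ext, hext⟩) <| lt_add_of_pos_right asup (half_pos hε)
  apply (isMIntegralCurveOn_piecewise (t₀ := asup - ε / 2) hv _ hγ2
      ⟨⟨by linarith, hlt⟩, ⟨by linarith, by linarith⟩⟩
      (by rw [piecewise, if_pos ⟨by linarith, hlt⟩, ← heq2])).mono
    (Ioo_subset_Ioo_union_Ioo le_rfl (by linarith) (by linarith))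
  exact (isMIntegralCurveOn_piecewise (t₀ := -(asup - ε / 2)) hv hγ hγ1
      ⟨⟨neg_lt_neg hlt, by linarith⟩, ⟨by linarith, by linarith⟩⟩ heq1.symm).mono
    (union_comm _ _ ▸ Ioo_subset_Ioo_union_Ioo (by linarith) (by linarith) le_rfl)

variable [FiniteDimensional ℝ E] [IsManifold 𝓘(ℝ, E) ∞ M]

/-- the box for an integral curve -/
theorem box_curve (hdim : Module.finrank ℝ E = 2) {f : M → ℝ}
    (hf : ContMDiff 𝓘(ℝ, E) 𝓘(ℝ, ℝ) ∞ f)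
    (hdf : ∀ x, mfderiv 𝓘(ℝ, E) 𝓘(ℝ, ℝ) f x (v x) = 0) {p : M}
    (hreg : mfderiv 𝓘(ℝ, E) 𝓘(ℝ, ℝ) f p ≠ 0) (hvp : v p ≠ 0)
    {δ : ℝ → M} {ε : ℝ} (hε : 0 < ε) (h0 : δ 0 = p) (hδ : IsMIntegralCurveOn δ v (Ioo (-ε) ε)) :
    ∃ V ∈ 𝓝 p, ∀ q ∈ V, f q = f p → ∃ s ∈ Ioo (-ε) ε, δ s = q := by
  have h00 : (0 : ℝ) ∈ Ioo (-ε) ε := ⟨by linarith, hε⟩
  have hd := (hδ 0 h00).hasMFDerivAt (Ioo_mem_nhds h00.1 h00.2)
  rw [h0] at hd
  refine local_box (w := v p) hdim hf hreg hvp (hdf p) hε h0 hd hδ.continuousOn ?_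
  intro t ht
  rw [level_const hf hdf hδ ht h00, h0]

/-- **Periodic orbits on compact regular levels of first integrals on surfaces.** -/
theorem exists_periodic [T2Space M] (hdim : Module.finrank ℝ E = 2) {f : M → ℝ}
    (hf : ContMDiff 𝓘(ℝ, E) 𝓘(ℝ, ℝ) ∞ f)
    (hv : ContMDiff 𝓘(ℝ, E) 𝓘(ℝ, E).tangent 1 (fun x ↦ (⟨x, v x⟩ : TangentBundle 𝓘(ℝ, E) M)))
    (hdf : ∀ x, mfderiv 𝓘(ℝ, E) 𝓘(ℝ, ℝ) f x (v x) = 0) (h : ℝ)
    (hreg : ∀ x, f x = h → mfderiv 𝓘(ℝ, E) 𝓘(ℝ, ℝ) f x ≠ 0) (hv0 : ∀ x, f x = h → v x ≠ 0)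
    (hc : IsCompact {x | f x = h}) (hne : {x | f x = h}.Nonempty) :
    ∃ (γ : ℝ → M) (T : ℝ), 0 < T ∧ IsMIntegralCurve γ v ∧ (∀ t, γ (t + T) = γ t) ∧
      ∀ t, f (γ t) = h := by
  have : IsManifold 𝓘(ℝ, E) 1 M := IsManifold.of_le (n := ∞) (by simp)
  set S : Set M := {x | f x = h} with hS
  -- local curves, uniformly
  have hloc : ∀ p ∈ S, ∃ V ∈ 𝓝[S] p, ∃ ε > 0, ∀ q ∈ V,
      ∃ γ : ℝ → M, γ 0 = q ∧ IsMIntegralCurveOn γ v (Ioo (-ε) ε) := by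
    intro p hp
    obtain ⟨δ, hδ0, hδ⟩ := exists_isMIntegralCurveAt_of_contMDiffAt_boundaryless
      (t₀ := 0) (x₀ := p) (hv p)
    rw [isMIntegralCurveAt_iff'] at hδ
    obtain ⟨ε, hε, hδ⟩ := hδ
    have hball : Metric.ball (0 : ℝ) ε = Ioo (-ε) ε := by
      rw [Real.ball_eq_Ioo]; simp
    rw [hball] at hδ
    have hε2 : 0 < ε / 2 := by positivity
    obtain ⟨V, hV, hV2⟩ := box_curve hdim hf hdf (hreg p hp) (hv0 p hp) hε2 hδ0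
      (hδ.mono (Ioo_subset_Ioo (by linarith) (by linarith)))
    refine ⟨V ∩ S, inter_mem (mem_nhdsWithin_of_mem_nhds hV) self_mem_nhdsWithin, ε / 2, hε2, ?_⟩
    rintro q ⟨hq1, hq2⟩
    obtain ⟨s, hs, hsq⟩ := hV2 q hq1 (by rw [show f q = h from hq2, show f p = h from hp])
    refine ⟨δ ∘ (· + s), by simpa using hsq, ?_⟩
    refine (hδ.comp_add s).mono ?_
    intro t ht
    exact ⟨by linarith [ht.1, hs.1], by linarith [ht.2, hs.2]⟩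
  obtain ⟨ε, hε, hunif⟩ : ∃ ε > 0, ∀ q ∈ S,
      ∃ γ : ℝ → M, γ 0 = q ∧ IsMIntegralCurveOn γ v (Ioo (-ε) ε) := by
    refine hc.induction_on (p := fun s : Set M => ∃ ε > 0, ∀ q ∈ s,
      ∃ γ : ℝ → M, γ 0 = q ∧ IsMIntegralCurveOn γ v (Ioo (-ε) ε)) ?_ ?_ ?_ ?_
    · exact ⟨1, one_pos, fun q hq => absurd hq (notMem_empty q)⟩
    · rintro s t hst ⟨ε, hε, h1⟩
      exact ⟨ε, hε, fun q hq => h1 q (hst hq)⟩
    · rintro s t ⟨ε₁, hε₁, h1⟩ ⟨ε₂, hε₂, h2⟩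
      refine ⟨min ε₁ ε₂, lt_min hε₁ hε₂, ?_⟩
      rintro q (hq | hq)
      · obtain ⟨γ, hγ0, hγ⟩ := h1 q hq
        exact ⟨γ, hγ0, hγ.mono (Ioo_subset_Ioo (neg_le_neg (min_le_left _ _)) (min_le_left _ _))⟩
      · obtain ⟨γ, hγ0, hγ⟩ := h2 q hq
        exact ⟨γ, hγ0, hγ.mono (Ioo_subset_Ioo (neg_le_neg (min_le_right _ _)) (min_le_right _ _))⟩
    · intro p hp
      obtain ⟨V, hV, ε, hε, h1⟩ := hloc p hp
      exact ⟨V, hV, ε, hε, h1⟩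
  have hinv : ∀ (γ : ℝ → M) (a b s t : ℝ), IsMIntegralCurveOn γ v (Ioo a b) →
      s ∈ Ioo a b → t ∈ Ioo a b → γ s ∈ S → γ t ∈ S := by
    intro γ a b s t hγ hs ht hsS
    show f (γ t) = h
    rw [level_const hf hdf hγ ht hs]
    exact hsS
  have hinv' : ∀ (γ : ℝ → M), IsMIntegralCurve γ v → γ 0 ∈ S → ∀ t, γ t ∈ S := by
    intro γ hγ h0 t
    refine hinv γ (-(|t| + 1)) (|t| + 1) 0 t (hγ.isMIntegralCurveOn _) ?_ ?_ h0
    · constructor <;> linarith [abs_nonneg t]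
    · constructor <;> linarith [abs_nonneg t, neg_abs_le t, le_abs_self t]
  obtain ⟨x₀, hx₀⟩ := hne
  obtain ⟨γ, hγ0, hγ⟩ := exists_global hv hinv hε hunif x₀ hx₀
  have hγS : ∀ t, γ t ∈ S := hinv' γ hγ (by rw [hγ0]; exact hx₀)
  -- recurrence
  obtain ⟨q, hq, hclus⟩ := hc.exists_mapClusterPt (f := atTop) (u := fun n : ℕ => γ n)
    (tendsto_principal.2 (Eventually.of_forall fun n => hγS n))
  obtain ⟨Γ, hΓ0, hΓ⟩ := exists_global hv hinv hε hunif q hq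
  have hΓS : ∀ t, Γ t ∈ S := hinv' Γ hΓ (by rw [hΓ0]; exact hq)
  obtain ⟨V, hV, hbox⟩ := box_curve hdim hf hdf (hreg q hq) (hv0 q hq) one_pos hΓ0
    (hΓ.isMIntegralCurveOn _)
  have hfreq : ∃ᶠ n : ℕ in atTop, γ n ∈ V := hclus.frequently hV
  obtain ⟨n, -, hn⟩ := (frequently_atTop.1 hfreq) 0
  obtain ⟨m, hm, hmV⟩ := (frequently_atTop.1 hfreq) (n + 3)
  obtain ⟨s, hs, hsn⟩ := hbox _ hn (by rw [show f (γ n) = h from hγS n, show f q = h from hq])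
  obtain ⟨s', hs', hsm⟩ := hbox _ hmV (by rw [show f (γ m) = h from hγS m, show f q = h from hq])
  -- `γ` is a translate of `Γ`
  have heq : γ ∘ (· + ((n : ℝ) - s)) = Γ := by
    refine isMIntegralCurve_Ioo_eq_of_contMDiff_boundaryless (t₀ := s) hv
      (hγ.comp_add ((n : ℝ) - s)) hΓ ?_
    simp [hsn]
  have h1 : Γ ((m : ℝ) - n + s) = Γ s' := by
    rw [hsm, ← heq]
    simp only [comp_apply]
    congr 1
    ring
  have hper := hΓ.periodic_of_eq hv h1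
  have hmn : ((n : ℝ) + 3) ≤ m := by exact_mod_cast hm
  refine ⟨Γ, (m : ℝ) - n + s - s', by linarith [hs.1, hs'.2], hΓ, fun t => hper t, hΓS⟩

end dyn

end Pool.Agent.U603.WP
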