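import Mathlib
import Pool.Agent.U603.WP.Def
import Pool.Agent.U603.WP.Dyn

/-! Level sets of `F (K x, y)` on a product. -/

open scoped Topology ContDiff Manifold
open Set Filter Function

noncomputable section

namespace Pool.Agent.U603.WP

section

variable {E₁ : Type*} [NormedAddCommGroup E₁] [NormedSpace ℝ E₁]
  {E₂ : Type*} [NormedAddCommGroup E₂] [NormedSpace ℝ E₂]
  {M : Type*} [TopologicalSpace M] [ChartedSpace E₁ M]
  {N : Type*} [TopologicalSpace N] [ChartedSpace E₂ N]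
  {K : M → ℝ} {F : ℝ × N → ℝ}

theorem contMDiff_slice₁ (hF : ContMDiff (𝓘(ℝ, ℝ).prod 𝓘(ℝ, E₂)) 𝓘(ℝ, ℝ) ∞ F) (y : N) :
    ContMDiff 𝓘(ℝ, ℝ) 𝓘(ℝ, ℝ) ∞ (fun t => F (t, y)) :=
  hF.comp (contMDiff_id.prodMk contMDiff_const)

theorem contMDiff_slice₂ (hF : ContMDiff (𝓘(ℝ, ℝ).prod 𝓘(ℝ, E₂)) 𝓘(ℝ, ℝ) ∞ F) (t : ℝ) :
    ContMDiff 𝓘(ℝ, E₂) 𝓘(ℝ, ℝ) ∞ (fun y => F (t, y)) :=
  hF.comp (contMDiff_const.prodMk contMDiff_id)

theorem contMDiff_total (hK : ContMDiff 𝓘(ℝ, E₁) 𝓘(ℝ, ℝ) ∞ K)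
    (hF : ContMDiff (𝓘(ℝ, ℝ).prod 𝓘(ℝ, E₂)) 𝓘(ℝ, ℝ) ∞ F) :
    ContMDiff (𝓘(ℝ, E₁).prod 𝓘(ℝ, E₂)) 𝓘(ℝ, ℝ) ∞ (fun p : M × N => F (K p.1, p.2)) :=
  hF.comp ((hK.comp contMDiff_fst).prodMk contMDiff_snd)

/-- the differential of `F (K x, y)` -/
theorem dF_total (hK : ContMDiff 𝓘(ℝ, E₁) 𝓘(ℝ, ℝ) ∞ K)
    (hF : ContMDiff (𝓘(ℝ, ℝ).prod 𝓘(ℝ, E₂)) 𝓘(ℝ, ℝ) ∞ F) (p : M × N) (v : E₁ × E₂) :
    dF (𝓘(ℝ, E₁).prod 𝓘(ℝ, E₂)) (fun p : M × N => F (K p.1, p.2)) p v =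
      deriv (fun t => F (t, p.2)) (K p.1) * dF 𝓘(ℝ, E₁) K p.1 v.1 +
        dF 𝓘(ℝ, E₂) (fun y => F (K p.1, y)) p.2 v.2 := by
  have hT : MDifferentiableAt (𝓘(ℝ, E₁).prod 𝓘(ℝ, E₂)) 𝓘(ℝ, ℝ)
      (fun p : M × N => F (K p.1, p.2)) p :=
    (contMDiff_total hK hF p).mdifferentiableAt (by simp)
  have h1 := mfderiv_prod_eq_add_apply (v := v) hT
  have h2 : mfderiv 𝓘(ℝ, E₁) 𝓘(ℝ, ℝ) (fun z : M => F (K z, p.2)) p.1 v.1 =
      deriv (fun t => F (t, p.2)) (K p.1) * dF 𝓘(ℝ, E₁) K p.1 v.1 := by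
    have hcomp : (fun z : M => F (K z, p.2)) = (fun t => F (t, p.2)) ∘ K := rfl
    have hm1 : MDifferentiableAt 𝓘(ℝ, ℝ) 𝓘(ℝ, ℝ) (fun t => F (t, p.2)) (K p.1) :=
      (contMDiff_slice₁ hF p.2 _).mdifferentiableAt (by simp)
    have hm2 : MDifferentiableAt 𝓘(ℝ, E₁) 𝓘(ℝ, ℝ) K p.1 :=
      (hK p.1).mdifferentiableAt (by simp)
    rw [hcomp, mfderiv_comp p.1 hm1 hm2]
    show mfderiv 𝓘(ℝ, ℝ) 𝓘(ℝ, ℝ) (fun t => F (t, p.2)) (K p.1)
      (mfderiv 𝓘(ℝ, E₁) 𝓘(ℝ, ℝ) K p.1 v.1) = _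
    rw [mfderiv_eq_fderiv]
    show fderiv ℝ (fun t => F (t, p.2)) (K p.1) (dF 𝓘(ℝ, E₁) K p.1 v.1) = _
    rw [← fderiv_apply_one_eq_deriv]
    conv_lhs => rw [show dF 𝓘(ℝ, E₁) K p.1 v.1 = dF 𝓘(ℝ, E₁) K p.1 v.1 • (1 : ℝ) by simp]
    rw [map_smul, smul_eq_mul, mul_comm]
  show mfderiv (𝓘(ℝ, E₁).prod 𝓘(ℝ, E₂)) 𝓘(ℝ, ℝ) (fun p : M × N => F (K p.1, p.2)) p v = _
  rw [h1, h2]
  rfl

/-- near a point where the differential in the `N` direction is nonzero the equation can be solved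
for all nearby values of the first variable -/
theorem solve_near (hF : ContMDiff (𝓘(ℝ, ℝ).prod 𝓘(ℝ, E₂)) 𝓘(ℝ, ℝ) ∞ F) {h₀ : ℝ} {y₀ : N} {c : ℝ}
    (hc : F (h₀, y₀) = c) (hd : dF 𝓘(ℝ, E₂) (fun y => F (h₀, y)) y₀ ≠ 0) :
    ∀ᶠ h in 𝓝 h₀, ∃ y, F (h, y) = c := by
  obtain ⟨v, hv⟩ : ∃ v, 0 < dF 𝓘(ℝ, E₂) (fun y => F (h₀, y)) y₀ v := by
    by_contra hcon
    push Not at hcon
    apply hd
    apply ContinuousLinearMap.ext
    intro v
    have h1 := hcon v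
    have h2 := hcon (-v)
    rw [map_neg] at h2
    simp only [zero_apply]
    linarith
  set ψ := extChartAt 𝓘(ℝ, E₂) y₀ with hψ
  set k : E₂ → ℝ := fun e => F (h₀, ψ.symm e) with hk
  have hs := contMDiff_slice₂ hF h₀
  have hkd : ContDiffAt ℝ ∞ k (ψ y₀) := by
    have h1 := (contMDiffAt_iff.1 (hs y₀)).2
    rw [← contDiffWithinAt_univ]
    simpa [Function.comp_def, hk, hψ] using h1
  have hkf : fderiv ℝ k (ψ y₀) = dF 𝓘(ℝ, E₂) (fun y => F (h₀, y)) y₀ := by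
    have h1 : MDifferentiableAt 𝓘(ℝ, E₂) 𝓘(ℝ, ℝ) (fun y => F (h₀, y)) y₀ :=
      (hs y₀).mdifferentiableAt (by simp)
    rw [dF, mfderiv, if_pos h1]
    simp [writtenInExtChartAt, Function.comp_def, hk, hψ, fderivWithin_univ]
  set d := dF 𝓘(ℝ, E₂) (fun y => F (h₀, y)) y₀ v with hdd
  set g : ℝ → ℝ := fun s => k (ψ y₀ + s • v) with hg
  have hg0 : g 0 = c := by
    simp only [hg, hk, zero_smul, add_zero]
    rw [ψ.left_inv (mem_extChartAt_source (I := 𝓘(ℝ, E₂)) y₀), hc]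
  have hgd : HasDerivAt g d 0 := by
    have h1 : HasFDerivAt k (fderiv ℝ k (ψ y₀)) (ψ y₀ + (0 : ℝ) • v) := by
      rw [zero_smul, add_zero]
      exact (hkd.differentiableAt (by simp)).hasFDerivAt
    have h2 : HasDerivAt (fun s : ℝ => ψ y₀ + s • v) v 0 := by
      have := ((hasDerivAt_id (0 : ℝ)).smul_const v).const_add (ψ y₀)
      simpa using this
    have h3 := h1.comp_hasDerivAt (0 : ℝ) h2
    rw [hkf] at h3
    exact h3
  have hslope : ∀ᶠ t in 𝓝[≠] (0 : ℝ), 0 < slope g 0 t :=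
    (hasDerivAt_iff_tendsto_slope.1 hgd).eventually (lt_mem_nhds hv)
  rw [eventually_nhdsWithin_iff] at hslope
  have htar : ∀ᶠ s in 𝓝 (0 : ℝ), ψ y₀ + s • v ∈ ψ.target := by
    have hcont : Continuous (fun s : ℝ => ψ y₀ + s • v) := by fun_prop
    refine hcont.continuousAt.eventually_mem ?_
    rw [zero_smul, add_zero]
    exact extChartAt_target_mem_nhds (I := 𝓘(ℝ, E₂)) y₀
  obtain ⟨r, hr, hball⟩ := Metric.eventually_nhds_iff.1 (htar.and hslope)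
  set η := r / 2 with hη
  have hη0 : 0 < η := by positivity
  have hin : ∀ t ∈ Icc (-η) η, dist t 0 < r := by
    intro t ht
    rw [Real.dist_eq, sub_zero, abs_lt]
    constructor <;> linarith [ht.1, ht.2]
  have hgη : c < g η := by
    have h1 := (hball (hin η ⟨by linarith, le_refl _⟩)).2 hη0.ne'
    rw [slope_def_field, hg0, sub_zero] at h1
    have h2 : (g η - c) / η * η = g η - c := div_mul_cancel₀ _ hη0.ne'
    have h3 : 0 < g η - c := by rw [← h2]; positivity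
    linarith
  have hgη' : g (-η) < c := by
    have h1 := (hball (hin (-η) ⟨le_refl _, by linarith⟩)).2 (by simp [hη0.ne'])
    rw [slope_def_field, hg0, sub_zero, div_neg, ← neg_div] at h1
    have h2 : - (g (-η) - c) / η * η = - (g (-η) - c) := div_mul_cancel₀ _ hη0.ne'
    have h3 : 0 < - (g (-η) - c) := by rw [← h2]; positivity
    linarith
  -- the path in `N`
  set y : ℝ → N := fun s => ψ.symm (ψ y₀ + s • v) with hy
  have hyc : ContinuousOn y (Icc (-η) η) := by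
    refine (continuousOn_extChartAt_symm (I := 𝓘(ℝ, E₂)) y₀).comp
      (by fun_prop) ?_
    intro t ht
    exact (hball (hin t ht)).1
  have hFc : Continuous F := hF.continuous
  have h1 : ∀ᶠ h in 𝓝 h₀, c < F (h, y η) := by
    have hcont : Continuous (fun h => F (h, y η)) := by fun_prop
    exact hcont.continuousAt.eventually (lt_mem_nhds hgη)
  have h2 : ∀ᶠ h in 𝓝 h₀, F (h, y (-η)) < c := by
    have hcont : Continuous (fun h => F (h, y (-η))) := by fun_prop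
    exact hcont.continuousAt.eventually (gt_mem_nhds hgη')
  filter_upwards [h1, h2] with h hh1 hh2
  have hcont : ContinuousOn (fun s => F (h, y s)) (Icc (-η) η) :=
    hFc.comp_continuousOn (continuousOn_const.prodMk hyc)
  obtain ⟨s, -, hs⟩ := intermediate_value_Icc (by linarith) hcont ⟨hh2.le, hh1.le⟩
  exact ⟨y s, hs⟩

/-- a compact level set has a point at which the differential in the `N` direction vanishes -/
theorem exists_crit [T2Space M] [ConnectedSpace M]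
    (hK : ContMDiff 𝓘(ℝ, E₁) 𝓘(ℝ, ℝ) ∞ K)
    (hF : ContMDiff (𝓘(ℝ, ℝ).prod 𝓘(ℝ, E₂)) 𝓘(ℝ, ℝ) ∞ F) {c : ℝ}
    (hcomp : IsCompact {p : M × N | F (K p.1, p.2) = c})
    (hne : {p : M × N | F (K p.1, p.2) = c}.Nonempty)
    (hproj : NoncompactSpace M ∨ ∃ x₁ : M, ∀ y : N, F (K x₁, y) ≠ c) :
    ∃ (x₀ : M) (y₀ : N), F (K x₀, y₀) = c ∧ dF 𝓘(ℝ, E₂) (fun y => F (K x₀, y)) y₀ = 0 := by
  by_contra hcon
  push Not at hcon
  set S : Set (M × N) := {p : M × N | F (K p.1, p.2) = c} with hS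
  have hPc : IsCompact (Prod.fst '' S) := hcomp.image continuous_fst
  have hPo : IsOpen (Prod.fst '' S) := by
    rw [isOpen_iff_mem_nhds]
    rintro x ⟨p, hp, rfl⟩
    have h1 := solve_near hF hp (hcon p.1 p.2 hp)
    have h2 := hK.continuous.continuousAt.eventually h1
    filter_upwards [h2] with x hx
    obtain ⟨y, hy⟩ := hx
    exact ⟨(x, y), hy, rfl⟩
  have huniv : Prod.fst '' S = univ :=
    IsClopen.eq_univ ⟨hPc.isClosed, hPo⟩ (hne.image _)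
  rcases hproj with h | ⟨x₁, hx₁⟩
  · exact noncompact_univ M (huniv ▸ hPc)
  · obtain ⟨p, hp, hpx⟩ : x₁ ∈ Prod.fst '' S := huniv ▸ mem_univ x₁
    refine hx₁ p.2 ?_
    rw [← hpx]
    exact hp

end

end Pool.Agent.U603.WP
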