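import Mathlib
import Pool.Agent.U603.WP.Prod

/-! Transfer of periodic orbits and of contact type. -/

open scoped Topology ContDiff Manifold
open Set Filter Function

noncomputable section

namespace Pool.Agent.U603.WP

section

variable {E₁ : Type*} [NormedAddCommGroup E₁] [NormedSpace ℝ E₁]
  {E₂ : Type*} [NormedAddCommGroup E₂] [NormedSpace ℝ E₂]
  {M : Type*} [TopologicalSpace M] [ChartedSpace E₁ M]
  {N : Type*} [TopologicalSpace N] [ChartedSpace E₂ N]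
  {K : M → ℝ} {F : ℝ × N → ℝ}
  {σ₁ : M → E₁ →L[ℝ] E₁ →L[ℝ] ℝ} {σ₂ : N → E₂ →L[ℝ] E₂ →L[ℝ] ℝ}

/-- the Hamiltonian vector field at a point where the `N` differential vanishes -/
theorem ham_eq (hK : ContMDiff 𝓘(ℝ, E₁) 𝓘(ℝ, ℝ) ∞ K)
    (hF : ContMDiff (𝓘(ℝ, ℝ).prod 𝓘(ℝ, E₂)) 𝓘(ℝ, ℝ) ∞ F)
    (h₁ : IsNondegForm σ₁) (h₂ : IsNondegForm σ₂) {X : M → E₁}
    (hX : IsHamiltonian 𝓘(ℝ, E₁) σ₁ K X) {Z : M × N → E₁ × E₂}
    (hZ : IsHamiltonian (𝓘(ℝ, E₁).prod 𝓘(ℝ, E₂)) (prodForm σ₁ σ₂)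
      (fun p : M × N => F (K p.1, p.2)) Z) (x : M) (y : N)
    (hy : dF 𝓘(ℝ, E₂) (fun y => F (K x, y)) y = 0) :
    Z (x, y) = (deriv (fun t => F (t, y)) (K x) • X x, 0) := by
  have key : ∀ v : E₁ × E₂, σ₁ x (Z (x, y)).1 v.1 + σ₂ y (Z (x, y)).2 v.2 =
      - (deriv (fun t => F (t, y)) (K x) * dF 𝓘(ℝ, E₁) K x v.1) := by
    intro v
    have h3 := hZ (x, y) v
    rw [dF_total hK hF] at h3
    simp only [hy] at h3
    rw [prodForm_apply] at h3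
    simpa using h3
  refine Prod.ext ?_ ?_
  · have h3 : (Z (x, y)).1 - deriv (fun t => F (t, y)) (K x) • X x = 0 := by
      refine h₁.nondeg x _ ?_
      intro v
      have h4 := key (v, 0)
      simp only [map_zero, add_zero] at h4
      have h5 := hX x v
      rw [map_sub, map_smul]
      simp only [sub_apply, smul_apply, smul_eq_mul]
      rw [h4, h5]
      ring
    exact sub_eq_zero.1 h3
  · refine h₂.nondeg y _ ?_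
    intro v
    have h4 := key (0, v)
    simpa using h4

/-- transfer of periodic orbits -/
theorem orbit_transfer (hK : ContMDiff 𝓘(ℝ, E₁) 𝓘(ℝ, ℝ) ∞ K)
    (hF : ContMDiff (𝓘(ℝ, ℝ).prod 𝓘(ℝ, E₂)) 𝓘(ℝ, ℝ) ∞ F)
    (h₁ : IsNondegForm σ₁) (h₂ : IsNondegForm σ₂) {X : M → E₁}
    (hX : IsHamiltonian 𝓘(ℝ, E₁) σ₁ K X) {Z : M × N → E₁ × E₂}
    (hZ : IsHamiltonian (𝓘(ℝ, E₁).prod 𝓘(ℝ, E₂)) (prodForm σ₁ σ₂)
      (fun p : M × N => F (K p.1, p.2)) Z) {c h a : ℝ} {y : N} (hc : F (h, y) = c)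
    (hy : dF 𝓘(ℝ, E₂) (fun y => F (h, y)) y = 0)
    (ha : deriv (fun t => F (t, y)) h = a) (ha0 : a ≠ 0) {γ : ℝ → M} {T : ℝ}
    (hγ : IsPeriodicOrbitOn 𝓘(ℝ, E₁) X K h γ T) :
    IsPeriodicOrbitOn (𝓘(ℝ, E₁).prod 𝓘(ℝ, E₂)) Z (fun p : M × N => F (K p.1, p.2)) c
      (fun t => (γ (t * a), y)) (T / |a|) := by
  refine ⟨div_pos hγ.pos (abs_pos.2 ha0), ?_, ?_, ?_⟩
  · intro t
    have h3 := hγ.integral.comp_mul a t
    have h4 : HasMFDerivAt 𝓘(ℝ, ℝ) 𝓘(ℝ, E₂) (fun _ : ℝ => y) t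
        (0 : TangentSpace 𝓘(ℝ, ℝ) t →L[ℝ] TangentSpace 𝓘(ℝ, E₂) y) := hasMFDerivAt_const _ _
    have h5 := h3.prodMk h4
    have h6 : Z (γ (t * a), y) = (a • X (γ (t * a)), 0) := by
      have h7 := ham_eq hK hF h₁ h₂ hX hZ (γ (t * a)) y (by rw [hγ.level]; exact hy)
      rw [h7, hγ.level, ha]
    have h8 : ((1 : ℝ →L[ℝ] ℝ).smulRight (Z (γ (t * a), y)) : ℝ →L[ℝ] E₁ × E₂) =
        ((1 : ℝ →L[ℝ] ℝ).smulRight (a • X (γ (t * a))) : ℝ →L[ℝ] E₁).prod 0 := by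
      rw [h6]
      apply ContinuousLinearMap.ext
      intro s
      simp
    show HasMFDerivAt 𝓘(ℝ, ℝ) (𝓘(ℝ, E₁).prod 𝓘(ℝ, E₂)) (fun t => (γ (t * a), y)) t
      ((1 : ℝ →L[ℝ] ℝ).smulRight (Z (γ (t * a), y)) : ℝ →L[ℝ] E₁ × E₂)
    rw [h8]
    exact h5
  · intro t
    have hp : Function.Periodic γ T := hγ.period
    have h3 : (t + T / |a|) * a = t * a + T ∨ (t + T / |a|) * a = t * a - T := by
      rcases lt_or_gt_of_ne ha0 with h | h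
      · right
        rw [abs_of_neg h]
        field_simp
        ring
      · left
        rw [abs_of_pos h]
        field_simp
    show (γ ((t + T / |a|) * a), y) = (γ (t * a), y)
    rcases h3 with h3 | h3
    · rw [h3, hp]
    · rw [h3, hp.sub_eq]
  · intro t
    show F (K (γ (t * a)), y) = c
    rw [hγ.level, hc]

end

section contact

variable {E₁ : Type*} [NormedAddCommGroup E₁] [NormedSpace ℝ E₁]
  {E₂ : Type*} [NormedAddCommGroup E₂] [NormedSpace ℝ E₂]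
  {M : Type*} [TopologicalSpace M] [ChartedSpace E₁ M] [IsManifold 𝓘(ℝ, E₁) ∞ M]
  {N : Type*} [TopologicalSpace N] [ChartedSpace E₂ N] [IsManifold 𝓘(ℝ, E₂) ∞ N]

/-- the charts of a product -/
theorem hasMFDerivAt_symm {E : Type*} [NormedAddCommGroup E] [NormedSpace ℝ E]
    {M : Type*} [TopologicalSpace M] [ChartedSpace E M] [IsManifold 𝓘(ℝ, E) ∞ M] (x : M) {a : E}
    (ha : a ∈ (extChartAt 𝓘(ℝ, E) x).target) :
    HasMFDerivAt 𝓘(ℝ, E) 𝓘(ℝ, E) (extChartAt 𝓘(ℝ, E) x).symm a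
      (mfderiv 𝓘(ℝ, E) 𝓘(ℝ, E) (extChartAt 𝓘(ℝ, E) x).symm a) := by
  have : IsManifold 𝓘(ℝ, E) 1 M := IsManifold.of_le (n := ∞) (by simp)
  have h := mdifferentiableWithinAt_extChartAt_symm (I := 𝓘(ℝ, E)) ha
  rw [ModelWithCorners.range_eq_univ, mdifferentiableWithinAt_univ] at h
  exact h.hasMFDerivAt

omit [IsManifold 𝓘(ℝ, E₁) ∞ M] [IsManifold 𝓘(ℝ, E₂) ∞ N] in
theorem symm_prod (x : M) (y : N) (a : E₁) (b : E₂) :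
    (extChartAt (𝓘(ℝ, E₁).prod 𝓘(ℝ, E₂)) (x, y)).symm (a, b) =
      ((extChartAt 𝓘(ℝ, E₁) x).symm a, (extChartAt 𝓘(ℝ, E₂) y).symm b) := by
  rw [extChartAt_prod]
  rfl

theorem mfderiv_symm_prod (x : M) (y : N) {a : E₁} {b : E₂}
    (ha : a ∈ (extChartAt 𝓘(ℝ, E₁) x).target) (hb : b ∈ (extChartAt 𝓘(ℝ, E₂) y).target)
    (u : E₁ × E₂) :
    (mfderiv 𝓘(ℝ, E₁ × E₂) (𝓘(ℝ, E₁).prod 𝓘(ℝ, E₂))
      (extChartAt (𝓘(ℝ, E₁).prod 𝓘(ℝ, E₂)) (x, y)).symm (a, b) : E₁ × E₂ →L[ℝ] E₁ × E₂) u =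
      ((mfderiv 𝓘(ℝ, E₁) 𝓘(ℝ, E₁) (extChartAt 𝓘(ℝ, E₁) x).symm a : E₁ →L[ℝ] E₁) u.1,
        (mfderiv 𝓘(ℝ, E₂) 𝓘(ℝ, E₂) (extChartAt 𝓘(ℝ, E₂) y).symm b : E₂ →L[ℝ] E₂) u.2) := by
  have hfst : HasMFDerivAt 𝓘(ℝ, E₁ × E₂) 𝓘(ℝ, E₁) (Prod.fst : E₁ × E₂ → E₁) (a, b)
      (ContinuousLinearMap.fst ℝ E₁ E₂) :=
    (hasFDerivAt_fst (p := (a, b))).hasMFDerivAt
  have hsnd : HasMFDerivAt 𝓘(ℝ, E₁ × E₂) 𝓘(ℝ, E₂) (Prod.snd : E₁ × E₂ → E₂) (a, b)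
      (ContinuousLinearMap.snd ℝ E₁ E₂) :=
    (hasFDerivAt_snd (p := (a, b))).hasMFDerivAt
  have h1 := (hasMFDerivAt_symm x ha).comp (a, b) hfst
  have h2 := (hasMFDerivAt_symm y hb).comp (a, b) hsnd
  have h3 := h1.prodMk h2
  have h4 : (fun p : E₁ × E₂ => (((extChartAt 𝓘(ℝ, E₁) x).symm ∘ Prod.fst) p,
      ((extChartAt 𝓘(ℝ, E₂) y).symm ∘ Prod.snd) p)) =
      (extChartAt (𝓘(ℝ, E₁).prod 𝓘(ℝ, E₂)) (x, y)).symm := by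
    funext p
    exact (symm_prod x y p.1 p.2).symm
  rw [h4] at h3
  rw [h3.mfderiv]
  rfl

variable {K : M → ℝ} {F : ℝ × N → ℝ}
  {σ₁ : M → E₁ →L[ℝ] E₁ →L[ℝ] ℝ} {σ₂ : N → E₂ →L[ℝ] E₂ →L[ℝ] ℝ}

theorem inChart_slice (Y : M × N → E₁ × E₂) (x : M) (y : N) {a : E₁}
    (ha : a ∈ (extChartAt 𝓘(ℝ, E₁) x).target) :
    inChart 𝓘(ℝ, E₁) (fun z => σ₁ z (Y (z, y)).1) x a =
      (inChart (𝓘(ℝ, E₁).prod 𝓘(ℝ, E₂)) (fun p => prodForm σ₁ σ₂ p (Y p)) (x, y)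
        (a, extChartAt 𝓘(ℝ, E₂) y y)).comp (ContinuousLinearMap.inl ℝ E₁ E₂) := by
  apply ContinuousLinearMap.ext
  intro u
  have hb : extChartAt 𝓘(ℝ, E₂) y y ∈ (extChartAt 𝓘(ℝ, E₂) y).target := mem_extChartAt_target y
  show σ₁ _ _ _ = prodForm σ₁ σ₂ _ _ ((mfderiv 𝓘(ℝ, E₁ × E₂) (𝓘(ℝ, E₁).prod 𝓘(ℝ, E₂))
      (extChartAt (𝓘(ℝ, E₁).prod 𝓘(ℝ, E₂)) (x, y)).symm (a, extChartAt 𝓘(ℝ, E₂) y y) :
        E₁ × E₂ →L[ℝ] E₁ × E₂) (u, 0))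
  rw [mfderiv_symm_prod x y ha hb, symm_prod, prodForm_apply,
    (extChartAt 𝓘(ℝ, E₂) y).left_inv (mem_extChartAt_source (I := 𝓘(ℝ, E₂)) y)]
  have hz : (mfderiv 𝓘(ℝ, E₂) 𝓘(ℝ, E₂) (extChartAt 𝓘(ℝ, E₂) y).symm
      (extChartAt 𝓘(ℝ, E₂) y y) : E₂ →L[ℝ] E₂) 0 = 0 := map_zero _
  have hz' : σ₂ y (Y ((extChartAt 𝓘(ℝ, E₁) x).symm a, y)).2
      ((mfderiv 𝓘(ℝ, E₂) 𝓘(ℝ, E₂) (extChartAt 𝓘(ℝ, E₂) y).symm
        (extChartAt 𝓘(ℝ, E₂) y y) : E₂ →L[ℝ] E₂) 0) = 0 := by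
    exact (congrArg (fun e : E₂ => σ₂ y (Y ((extChartAt 𝓘(ℝ, E₁) x).symm a, y)).2 e) hz).trans
      ((σ₂ y (Y ((extChartAt 𝓘(ℝ, E₁) x).symm a, y)).2).map_zero)
  exact (add_zero _).symm.trans (congrArg₂ (· + ·) rfl hz'.symm)

theorem extDer_slice (h₁ : IsNondegForm σ₁) (Y : M × N → E₁ × E₂) (x : M) (y : N)
    (hd : ∀ u v, extDer (𝓘(ℝ, E₁).prod 𝓘(ℝ, E₂)) (fun p => prodForm σ₁ σ₂ p (Y p)) (x, y) u v =
      prodForm σ₁ σ₂ (x, y) u v) (u v : E₁) :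
    extDer 𝓘(ℝ, E₁) (fun z => σ₁ z (Y (z, y)).1) x u v = σ₁ x u v := by
  set G := inChart (𝓘(ℝ, E₁).prod 𝓘(ℝ, E₂)) (fun p => prodForm σ₁ σ₂ p (Y p)) (x, y) with hG
  set p₀ : E₁ × E₂ := extChartAt (𝓘(ℝ, E₁).prod 𝓘(ℝ, E₂)) (x, y) (x, y) with hp₀
  have hp₀' : p₀ = (extChartAt 𝓘(ℝ, E₁) x x, extChartAt 𝓘(ℝ, E₂) y y) := by
    rw [hp₀, extChartAt_prod]
    rfl
  by_cases hdiff : DifferentiableAt ℝ G p₀
  · have h3 : inChart 𝓘(ℝ, E₁) (fun z => σ₁ z (Y (z, y)).1) x =ᶠ[𝓝 (extChartAt 𝓘(ℝ, E₁) x x)]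
        fun a => (G (a, extChartAt 𝓘(ℝ, E₂) y y)).comp (ContinuousLinearMap.inl ℝ E₁ E₂) := by
      filter_upwards [extChartAt_target_mem_nhds (I := 𝓘(ℝ, E₁)) x] with a ha
      exact inChart_slice Y x y ha
    have h4 : HasFDerivAt (fun a => (G (a, extChartAt 𝓘(ℝ, E₂) y y)).comp
        (ContinuousLinearMap.inl ℝ E₁ E₂))
        (((ContinuousLinearMap.compL ℝ E₁ (E₁ × E₂) ℝ).flip
          (ContinuousLinearMap.inl ℝ E₁ E₂)).comp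
            ((fderiv ℝ G p₀).comp (ContinuousLinearMap.inl ℝ E₁ E₂)))
        (extChartAt 𝓘(ℝ, E₁) x x) := by
      have h5 : HasFDerivAt (fun a : E₁ => (a, extChartAt 𝓘(ℝ, E₂) y y))
          (ContinuousLinearMap.inl ℝ E₁ E₂) (extChartAt 𝓘(ℝ, E₁) x x) :=
        (hasFDerivAt_id _).prodMk (hasFDerivAt_const _ _)
      have h6 : HasFDerivAt G (fderiv ℝ G p₀)
          (extChartAt 𝓘(ℝ, E₁) x x, extChartAt 𝓘(ℝ, E₂) y y) := by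
        rw [← hp₀']
        exact hdiff.hasFDerivAt
      have h7 := h6.comp (extChartAt 𝓘(ℝ, E₁) x x) h5
      exact ((ContinuousLinearMap.compL ℝ E₁ (E₁ × E₂) ℝ).flip
          (ContinuousLinearMap.inl ℝ E₁ E₂)).hasFDerivAt.comp _ h7
    have h8 := h3.fderiv_eq.trans h4.fderiv
    unfold extDer
    rw [h8]
    have h9 := hd (u, 0) (v, 0)
    rw [prodForm_apply] at h9
    simp only [map_zero, add_zero] at h9
    rw [← h9]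
    rfl
  · have h3 : ∀ u v, prodForm σ₁ σ₂ (x, y) u v = 0 := by
      intro u v
      rw [← hd u v]
      unfold extDer
      rw [← hG, ← hp₀, fderiv_zero_of_not_differentiableAt hdiff]
      simp
    have h4 : ∀ u : E₁, u = 0 := by
      intro u
      refine h₁.nondeg x u ?_
      intro v
      have h5 := h3 (u, 0) (v, 0)
      rw [prodForm_apply] at h5
      simpa using h5
    rw [h4 u, h4 v]
    unfold extDer
    simp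

/-- transfer of contact type -/
theorem contact_transfer (hK : ContMDiff 𝓘(ℝ, E₁) 𝓘(ℝ, ℝ) ∞ K)
    (hF : ContMDiff (𝓘(ℝ, ℝ).prod 𝓘(ℝ, E₂)) 𝓘(ℝ, ℝ) ∞ F)
    (h₁ : IsNondegForm σ₁) {c h : ℝ} {y : N} (hc : F (h, y) = c)
    (hy : dF 𝓘(ℝ, E₂) (fun y => F (h, y)) y = 0)
    (hct : ContactType (𝓘(ℝ, E₁).prod 𝓘(ℝ, E₂)) (prodForm σ₁ σ₂)
      (fun p : M × N => F (K p.1, p.2)) c) :
    ContactType 𝓘(ℝ, E₁) σ₁ K h := by
  obtain ⟨U, hU, hSU, Y, hY, hd, ht⟩ := hct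
  have hι : ContMDiff 𝓘(ℝ, E₁) (𝓘(ℝ, E₁).prod 𝓘(ℝ, E₂)) ∞ (fun x : M => (x, y)) :=
    contMDiff_id.prodMk contMDiff_const
  have hmem : ∀ x, K x = h → F (K x, y) = c := fun x hx => by rw [hx, hc]
  refine ⟨(fun x : M => (x, y)) ⁻¹' U, hU.preimage hι.continuous, ?_,
    fun x => (Y (x, y)).1, ?_, ?_, ?_⟩
  · intro x hx
    exact hSU (hmem x hx)
  · have h3 : ContMDiffOn 𝓘(ℝ, E₁) (𝓘(ℝ, E₁).prod 𝓘(ℝ, E₂)).tangent ∞
        (fun x : M => (⟨(x, y), Y (x, y)⟩ : TangentBundle (𝓘(ℝ, E₁).prod 𝓘(ℝ, E₂)) (M × N)))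
        ((fun x : M => (x, y)) ⁻¹' U) :=
      ContMDiffOn.comp (t := U) hY hι.contMDiffOn (fun x hx => hx)
    have h4 : ContMDiff (𝓘(ℝ, E₁).prod 𝓘(ℝ, E₂)).tangent 𝓘(ℝ, E₁).tangent ∞
        (tangentMap (𝓘(ℝ, E₁).prod 𝓘(ℝ, E₂)) 𝓘(ℝ, E₁) (Prod.fst : M × N → M)) :=
      (contMDiff_fst (n := ∞)).contMDiff_tangentMap (by simp)
    have h5 := h4.comp_contMDiffOn h3
    refine h5.congr ?_
    intro x hx
    simp only [Function.comp_apply]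
    rw [tangentMap_prodFst]
  · intro x hx u v
    exact extDer_slice h₁ Y x y (hd (x, y) hx) u v
  · intro x hx
    have h3 := ht (x, y) (hmem x hx)
    rw [dF_total hK hF] at h3
    simp only [hx, hy] at h3
    intro h4
    apply h3
    rw [h4]
    simp

end contact

section main

variable {E₁ : Type*} [NormedAddCommGroup E₁] [NormedSpace ℝ E₁] [FiniteDimensional ℝ E₁]
  {E₂ : Type*} [NormedAddCommGroup E₂] [NormedSpace ℝ E₂]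
  {M : Type*} [TopologicalSpace M] [ChartedSpace E₁ M] [IsManifold 𝓘(ℝ, E₁) ∞ M]
  {N : Type*} [TopologicalSpace N] [ChartedSpace E₂ N] [IsManifold 𝓘(ℝ, E₂) ∞ N]

theorem main [T2Space M] [ConnectedSpace M]
    (σ₁ : M → E₁ →L[ℝ] E₁ →L[ℝ] ℝ) (h₁ : IsNondegForm σ₁)
    (σ₂ : N → E₂ →L[ℝ] E₂ →L[ℝ] ℝ) (h₂ : IsNondegForm σ₂)
    (K : M → ℝ) (hK : ContMDiff 𝓘(ℝ, E₁) 𝓘(ℝ, ℝ) ∞ K)
    (F : ℝ × N → ℝ) (hF : ContMDiff (𝓘(ℝ, ℝ).prod 𝓘(ℝ, E₂)) 𝓘(ℝ, ℝ) ∞ F) (c : ℝ)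
    (hS : CompactRegular (𝓘(ℝ, E₁).prod 𝓘(ℝ, E₂)) (fun p : M × N => F (K p.1, p.2)) c)
    (hproj : NoncompactSpace M ∨ ∃ x₁ : M, ∀ y : N, F (K x₁, y) ≠ c)
    (X : M → E₁) (hX : IsHamiltonian 𝓘(ℝ, E₁) σ₁ K X)
    (Z : M × N → E₁ × E₂) (hZ : IsHamiltonian (𝓘(ℝ, E₁).prod 𝓘(ℝ, E₂)) (prodForm σ₁ σ₂)
      (fun p : M × N => F (K p.1, p.2)) Z) :
    ∃ (h a : ℝ) (y : N), a ≠ 0 ∧ CompactRegular 𝓘(ℝ, E₁) K h ∧
      (∀ x, K x = h → F (K x, y) = c) ∧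
      (∀ (γ : ℝ → M) (T : ℝ), IsPeriodicOrbitOn 𝓘(ℝ, E₁) X K h γ T →
        IsPeriodicOrbitOn (𝓘(ℝ, E₁).prod 𝓘(ℝ, E₂)) Z (fun p : M × N => F (K p.1, p.2)) c
          (fun t => (γ (t * a), y)) (T / |a|)) ∧
      (ContactType (𝓘(ℝ, E₁).prod 𝓘(ℝ, E₂)) (prodForm σ₁ σ₂)
        (fun p : M × N => F (K p.1, p.2)) c → ContactType 𝓘(ℝ, E₁) σ₁ K h) ∧
      (Module.finrank ℝ E₁ = 2 → SmoothFieldOn 𝓘(ℝ, E₁) 1 X univ →
        ∃ (γ : ℝ → M × N) (T : ℝ), IsPeriodicOrbitOn (𝓘(ℝ, E₁).prod 𝓘(ℝ, E₂)) Z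
          (fun p : M × N => F (K p.1, p.2)) c γ T) := by
  obtain ⟨x₀, y, hc, hy⟩ := exists_crit hK hF hS.compact hS.nonempty hproj
  set h := K x₀ with hh
  set a := deriv (fun t => F (t, y)) h with ha
  have hreg : ∀ x, K x = h → a ≠ 0 ∧ dF 𝓘(ℝ, E₁) K x ≠ 0 := by
    intro x hx
    have h3 := hS.regular (x, y) (by show F (K x, y) = c; rw [hx, hc])
    have h4 : ∀ v : E₁ × E₂, dF (𝓘(ℝ, E₁).prod 𝓘(ℝ, E₂)) (fun p : M × N => F (K p.1, p.2)) (x, y) v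
        = a * dF 𝓘(ℝ, E₁) K x v.1 := by
      intro v
      rw [dF_total hK hF]
      simp only [hx, hy, ← ha]
      simp
    constructor
    · intro h0
      apply h3
      apply ContinuousLinearMap.ext
      intro v
      rw [h4, h0]
      simp
    · intro h0
      apply h3
      apply ContinuousLinearMap.ext
      intro v
      rw [h4, h0]
      simp
  have ha0 : a ≠ 0 := (hreg x₀ rfl).1
  have hlev : ∀ x, K x = h → F (K x, y) = c := fun x hx => by rw [hx, hc]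
  have hcomp : IsCompact {x | K x = h} := by
    refine (hS.compact.image continuous_fst).of_isClosed_subset
      (isClosed_eq hK.continuous continuous_const) ?_
    intro x hx
    exact ⟨(x, y), hlev x hx, rfl⟩
  refine ⟨h, a, y, ha0, ⟨hcomp, ⟨x₀, rfl⟩, fun x hx => (hreg x hx).2⟩, hlev, ?_, ?_, ?_⟩
  · intro γ T hγ
    exact orbit_transfer hK hF h₁ h₂ hX hZ hc hy ha.symm ha0 hγ
  · intro hct
    exact contact_transfer hK hF h₁ hc hy hct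
  · intro hdim hXs
    have hv : ContMDiff 𝓘(ℝ, E₁) 𝓘(ℝ, E₁).tangent 1
        (fun x ↦ (⟨x, X x⟩ : TangentBundle 𝓘(ℝ, E₁) M)) := contMDiffOn_univ.1 hXs
    have hdf : ∀ x, mfderiv 𝓘(ℝ, E₁) 𝓘(ℝ, ℝ) K x (X x) = 0 := by
      intro x
      have h3 := hX x (X x)
      rw [h₁.alt] at h3
      have h4 : dF 𝓘(ℝ, E₁) K x (X x) = 0 := by linarith
      exact h4
    have hX0 : ∀ x, K x = h → X x ≠ 0 := by
      intro x hx h0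
      apply (hreg x hx).2
      apply ContinuousLinearMap.ext
      intro v
      have h3 := hX x v
      rw [h0, map_zero] at h3
      simp only [zero_apply] at h3 ⊢
      linarith
    obtain ⟨γ, T, hT, hγ, hper, hlv⟩ := exists_periodic (v := X) hdim hK hv hdf h
      (fun x hx => (hreg x hx).2) hX0 hcomp ⟨x₀, rfl⟩
    exact ⟨_, _, orbit_transfer hK hF h₁ h₂ hX hZ hc hy ha.symm ha0 ⟨hT, hγ, hper, hlv⟩⟩

end main

end Pool.Agent.U603.WP
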